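import Pool.Agent.PQP.StmtsZ

set_option autoImplicit false

open scoped InnerProductSpace Topology ContDiff Manifold
open MeasureTheory Filter Set

noncomputable section

namespace Pool.Agent.PQP.H27

open Pool.Agent.Helper42_Paneitz Pool.Agent.Helper82_Vir Pool.Agent.FLX

theorem nrm_coe {z : E5} (hz : z ≠ 0) : (nrm z : E5) = ‖z‖⁻¹ • z := by
  unfold nrm
  rw [dif_neg hz]

theorem continuousAt_nrm {z : E5} (hz : z ≠ 0) : ContinuousAt nrm z := by
  rw [Topology.IsInducing.subtypeVal.continuousAt_iff]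
  have h1 : ContinuousAt (fun y : E5 => ‖y‖⁻¹ • y) z :=
    (continuous_norm.continuousAt.inv₀ (norm_ne_zero_iff.2 hz)).smul continuousAt_id
  refine h1.congr ?_
  filter_upwards [isOpen_ne.mem_nhds hz] with y hy
  exact (nrm_coe hy).symm

theorem radialExt_inv {P : Submodule ℝ E5} {ψ : S4 → ℝ} (h : Inv P ψ) {y : E5} (hy : y ≠ 0) :
    radialExt ψ (P.reflection y) = radialExt ψ y := by
  have hRy : P.reflection y ≠ 0 := by
    intro h0
    apply hy
    exact P.reflection.map_eq_zero_iff.1 h0
  rw [radialExt_apply _ hRy, radialExt_apply _ hy]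
  rw [← h ⟨‖y‖⁻¹ • y, normalize_mem hy⟩]
  congr 1
  apply Subtype.ext
  show ‖P.reflection y‖⁻¹ • P.reflection y = P.reflection (‖y‖⁻¹ • y)
  rw [LinearIsometryEquiv.norm_map, map_smul]

theorem dd_inv {P : Submodule ℝ E5} {ψ : S4 → ℝ} (hψ : Sm ψ) (h : Inv P ψ) {w : S4}
    (hw : (w : E5) ∈ P) (v : E5) : dd ψ w (P.reflection v) = dd ψ w v := by
  have hRw : P.reflection (w : E5) = (w : E5) := (P.reflection_eq_self_iff _).2 hw
  have h1 : HasFDerivAt (radialExt ψ) (fderiv ℝ (radialExt ψ) (w : E5)) (w : E5) :=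
    (sm_diffAt hψ (S4_ne_zero w)).hasFDerivAt
  have h2 : HasFDerivAt (fun y : E5 => P.reflection y)
      (P.reflection.toContinuousLinearEquiv : E5 →L[ℝ] E5) (w : E5) :=
    (P.reflection.toContinuousLinearEquiv : E5 →L[ℝ] E5).hasFDerivAt
  have h1' : HasFDerivAt (radialExt ψ) (fderiv ℝ (radialExt ψ) (w : E5)) (P.reflection (w : E5)) := by
    rw [hRw]; exact h1
  have h3 := h1'.comp (w : E5) h2
  have h4 : (radialExt ψ ∘ fun y : E5 => P.reflection y) =ᶠ[𝓝 (w : E5)] radialExt ψ := by
    filter_upwards [isOpen_ne.mem_nhds (S4_ne_zero w)] with y hy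
    exact radialExt_inv h hy
  have h5 := (h3.congr_of_eventuallyEq h4.symm).unique h1
  have h6 := congrArg (fun L => L v) h5
  exact h6

theorem gd_mem {P : Submodule ℝ E5} {ψ : S4 → ℝ} (hψ : Sm ψ) (h : Inv P ψ) {w : S4}
    (hw : (w : E5) ∈ P) : gd ψ w ∈ P := by
  rw [← P.reflection_eq_self_iff]
  apply ext_inner_left ℝ
  intro v
  have h1 : ⟪v, P.reflection (gd ψ w)⟫_ℝ = ⟪P.reflection v, gd ψ w⟫_ℝ := by
    have h2 := P.reflection.inner_map_map v (P.reflection (gd ψ w))
    rw [Submodule.reflection_reflection] at h2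
    exact h2.symm
  rw [h1, inner_gd, inner_gd, dd_inv hψ h hw]

theorem mw_mem {P : Submodule ℝ E5} {ψ : S4 → ℝ} (hψ : Sm ψ) (h : Inv P ψ) {w : S4}
    (hw : (w : E5) ∈ P) : mw ψ w ∈ P :=
  P.add_mem (P.smul_mem _ hw) (gd_mem hψ h hw)

theorem continuous_mw {ψ : S4 → ℝ} (hψ : Sm ψ) : Continuous (mw ψ) := by
  unfold mw
  exact ((continuous_of_sm hψ.sphLaplacian).neg.smul continuous_subtype_val).add
    (smV_gd hψ).continuous

theorem mdc : MdcStmt := by
  intro P ψ hψ hI
  have hc := continuous_mw hψ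
  obtain ⟨C, hC⟩ : ∃ C : ℝ, ∀ w, ‖mw ψ w‖ ≤ C := by
    obtain ⟨C, hC⟩ := (isCompact_univ (X := S4)).exists_bound_of_continuousOn hc.continuousOn
    exact ⟨C, fun w => hC w (mem_univ w)⟩
  constructor
  · rw [continuous_iff_continuousAt]
    intro z
    by_cases hz : z = 0
    · subst hz
      have h0 : mdl P ψ 0 = 0 := by
        unfold mdl
        simp
      rw [ContinuousAt, h0]
      apply squeeze_zero_norm (a := fun z : P => ‖z‖ * C)
      · intro z
        unfold mdl
        rw [norm_smul, norm_norm]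
        exact mul_le_mul_of_nonneg_left
          ((P.norm_orthogonalProjectionOnto_apply_le _).trans (hC _)) (norm_nonneg _)
      · have h1 : Tendsto (fun z : P => ‖z‖ * C) (𝓝 0) (𝓝 (‖(0 : P)‖ * C)) :=
          (continuous_norm.mul continuous_const).tendsto 0
        rwa [norm_zero, zero_mul] at h1
    · have hz' : (z : E5) ≠ 0 := by
        intro h
        exact hz (Subtype.ext h)
      have h1 : ContinuousAt (fun z : P => nrm (z : E5)) z :=
        ContinuousAt.comp (f := fun z : P => (z : E5)) (g := nrm) (continuousAt_nrm hz')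
          continuous_subtype_val.continuousAt
      have h2 : ContinuousAt (fun z : P => mw ψ (nrm (z : E5))) z :=
        ContinuousAt.comp (f := fun z : P => nrm (z : E5)) (g := mw ψ) hc.continuousAt h1
      have h3 : ContinuousAt (fun z : P => P.orthogonalProjectionOnto (mw ψ (nrm (z : E5)))) z :=
        ContinuousAt.comp (f := fun z : P => mw ψ (nrm (z : E5)))
          (g := P.orthogonalProjectionOnto) P.orthogonalProjectionOnto.continuous.continuousAt h2
      exact continuous_norm.continuousAt.smul h3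
  · intro z
    by_cases hz : z = 0
    · subst hz
      unfold mdl
      simp
    · have hz' : (z : E5) ≠ 0 := by
        intro h
        exact hz (Subtype.ext h)
      have hm : mw ψ (nrm (z : E5)) ∈ P := by
        apply mw_mem hψ hI
        rw [nrm_coe hz']
        exact P.smul_mem _ z.2
      unfold mdl
      rw [Submodule.coe_smul]
      congr 1
      have := P.orthogonalProjectionOnto_mem_subspace_eq_self ⟨_, hm⟩
      exact congrArg Subtype.val this

end Pool.Agent.PQP.H27
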